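import Pool.Agent.H293.HA.Att

/-!
# MP_7e6317_an: asymptotics of the best Hausdorff approximation of power type functions

For `α > 0` write `E_n(f) = E(H_n,[-1,1],α;f)`.  We prove

* `E_n(|x|^λ) ~ cPhi λ / (α n)` and `E_n(|x|^λ sgn x) ~ cPsi λ / (α n)` for `0 < λ < 1`,
* `E_n(|x|) ~ cAbs α / n`,
* `E_n((1-x²)^λ) ~ cTheta λ / (2 α n²)` for `0 < λ < 1`,

where the constants are positive and are the values (attained minima) of the corresponding
extremal problems for entire functions of exponential type at most one (the analogue of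
Bernstein's description of the asymptotic constant of uniform approximation of `|x|^λ`).
-/

set_option autoImplicit false

open Filter Topology Set

namespace Pool.Agent.Results.MP_7e6317_an.ExactAsymptotics

/-- `h([-1,1],α;f,g) = max_x min_y max (|x-y|/α, |f(x)-g(y)|)`. -/
noncomputable def h (α : ℝ) (f g : ℝ → ℝ) : ℝ :=
  sSup ((fun x => sInf ((fun y => max (|x - y| / α) |f x - g y|) '' Icc (-1) 1)) '' Icc (-1) 1)

/-- The Hausdorff distance `r([-1,1],α;f,g)` with parameter `α`. -/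
noncomputable def r (α : ℝ) (f g : ℝ → ℝ) : ℝ := max (h α f g) (h α g f)

/-- The best Hausdorff approximation `E(H_n,[-1,1],α;f)`: infimum of `r([-1,1],α;f,P)` over real
polynomials `P` of degree at most `n`. -/
noncomputable def E (n : ℕ) (α : ℝ) (f : ℝ → ℝ) : ℝ :=
  sInf ((fun P : Polynomial ℝ => r α f (fun x => P.eval x)) '' {P | P.natDegree ≤ n})

/-- `φ(λ;x) = |x|^λ` -/
noncomputable def phi (lam : ℝ) (x : ℝ) : ℝ := |x| ^ lam

/-- `ψ(λ;x) = |x|^λ sgn x` -/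
noncomputable def psi (lam : ℝ) (x : ℝ) : ℝ := |x| ^ lam * Real.sign x

/-- `θ(λ;x) = (1-x²)^λ` -/
noncomputable def theta (lam : ℝ) (x : ℝ) : ℝ := (1 - x ^ 2) ^ lam

/-- Entire functions of exponential type at most one which are real on the real line. -/
def E1 (Q : ℂ → ℂ) : Prop :=
  Differentiable ℂ Q ∧
  (∀ ε : ℝ, 0 < ε → ∃ C : ℝ, ∀ z : ℂ, ‖Q z‖ ≤ C * Real.exp ((1 + ε) * ‖z‖)) ∧
  ∀ x : ℝ, (Q x).im = 0

/-- The graphs over `ℝ` of `F` and of `Q` are within horizontal distance `a` and vertical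
distance `v` of each other. -/
def Near (F : ℝ → ℝ) (a v : ℝ) (Q : ℂ → ℂ) : Prop :=
  (∀ s : ℝ, ∃ t : ℝ, |s - t| ≤ a ∧ |F t - (Q s).re| ≤ v) ∧
  (∀ t : ℝ, ∃ s : ℝ, |s - t| ≤ a ∧ |F t - (Q s).re| ≤ v)

/-- The `c > 0` for which the graph of some `Q ∈ E1` is within purely horizontal distance `c` of
the graph of `F` on `ℝ`. -/
def SH (F : ℝ → ℝ) : Set ℝ := {c | 0 < c ∧ ∃ Q, E1 Q ∧ Near F c 0 Q}

/-- The `v > 0` for which some `Q ∈ E1` has Hausdorff distance with parameter `α` at most `v`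
from `|x|` on `ℝ`. -/
def SAbs (α : ℝ) : Set ℝ := {v | 0 < v ∧ ∃ Q, E1 Q ∧ Near (phi 1) (α * v) v Q}

/-- The `c > 0` for which some even `Q ∈ E1` satisfies: every point of the graph of `Q` has the
ordinate of a point of the graph of `|t|^(2λ)` with `|s² - t²| ≤ c`, and conversely. -/
def STheta (lam : ℝ) : Set ℝ :=
  {c | 0 < c ∧ ∃ Q, E1 Q ∧ (∀ z, Q (-z) = Q z) ∧
    (∀ s : ℝ, ∃ t : ℝ, |s ^ 2 - t ^ 2| ≤ c ∧ (Q s).re = (t ^ 2) ^ lam) ∧
    (∀ t : ℝ, ∃ s : ℝ, |s ^ 2 - t ^ 2| ≤ c ∧ (Q s).re = (t ^ 2) ^ lam)}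

/-- the constant for `φ(λ)`, `0 < λ < 1` -/
noncomputable def cPhi (lam : ℝ) : ℝ := sInf (SH (phi lam))

/-- the constant for `ψ(λ)`, `0 < λ < 1` -/
noncomputable def cPsi (lam : ℝ) : ℝ := sInf (SH (psi lam))

/-- the constant for `φ(1) = |x|` -/
noncomputable def cAbs (α : ℝ) : ℝ := sInf (SAbs α)

/-- the constant for `θ(λ)`, `0 < λ < 1` -/
noncomputable def cTheta (lam : ℝ) : ℝ := sInf (STheta lam)

open Pool.Agent.H293.HA in
lemma pt_psi {lam : ℝ} (h0 : 0 < lam) : PT lam (-1) (psi lam) := by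
  have hval : ∀ t : ℝ, 0 ≤ t → psi lam t = t ^ lam := by
    intro t ht
    unfold psi
    rcases eq_or_lt_of_le ht with h1 | h1
    · rw [← h1]
      simp [Real.zero_rpow h0.ne']
    · rw [Real.sign_of_pos h1, abs_of_pos h1, mul_one]
  have hodd : ∀ t : ℝ, psi lam (-t) = -1 * psi lam t := by
    intro t
    unfold psi
    rw [abs_neg, Real.sign_neg]
    ring
  refine ⟨?_, hval, hodd, Or.inr rfl⟩
  have heq : psi lam = fun t => (max t 0) ^ lam - (max (-t) 0) ^ lam := by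
    funext t
    rcases le_total 0 t with ht | ht
    · rw [hval t ht, max_eq_left ht, max_eq_right (by linarith), Real.zero_rpow h0.ne', sub_zero]
    · have h1 := hodd (-t)
      rw [neg_neg, hval (-t) (by linarith)] at h1
      rw [h1, max_eq_right ht, max_eq_left (by linarith), Real.zero_rpow h0.ne']
      ring
  rw [heq]
  exact ((continuous_id.max continuous_const).rpow_const (fun _ => Or.inr h0.le)).sub
    ((continuous_neg.max continuous_const).rpow_const (fun _ => Or.inr h0.le))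

open Pool.Agent.H293.HA in
lemma pt_phi {lam : ℝ} (h0 : 0 < lam) : PT lam 1 (phi lam) := by
  have := PT_abs (lam := lam / 2) (by linarith)
  rwa [show 2 * (lam / 2) = lam by ring] at this

open Pool.Agent.H293.HA in
lemma SH_eq (F : ℝ → ℝ) : SH F = {c : ℝ | 0 < c ∧ ∃ Q, Feas F c 0 Q} := by
  ext c
  constructor
  · rintro ⟨hc, Q, ⟨h1, h2, h3⟩, h4, h5⟩
    exact ⟨hc, Q, ⟨h1, h2⟩, h3, h4, h5⟩
  · rintro ⟨hc, Q, ⟨h1, h2⟩, h3, h4, h5⟩
    exact ⟨hc, Q, ⟨h1, h2, h3⟩, h4, h5⟩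

open Pool.Agent.H293.HA in
lemma SAbs_eq (α : ℝ) : SAbs α = {v : ℝ | 0 < v ∧ ∃ Q, Feas (phi 1) (α * v) v Q} := by
  ext c
  constructor
  · rintro ⟨hc, Q, ⟨h1, h2, h3⟩, h4, h5⟩
    exact ⟨hc, Q, ⟨h1, h2⟩, h3, h4, h5⟩
  · rintro ⟨hc, Q, ⟨h1, h2⟩, h3, h4, h5⟩
    exact ⟨hc, Q, ⟨h1, h2, h3⟩, h4, h5⟩

open Pool.Agent.H293.HA in
lemma STheta_eq (lam : ℝ) : STheta lam = {c : ℝ | 0 < c ∧ ∃ Q, FeasT lam c Q} := by
  ext c
  constructor
  · rintro ⟨hc, Q, ⟨h1, h2, h3⟩, h6, h4, h5⟩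
    exact ⟨hc, Q, ⟨h1, h2⟩, h6, h3, h4, h5⟩
  · rintro ⟨hc, Q, ⟨h1, h2⟩, h6, h3, h4, h5⟩
    exact ⟨hc, Q, ⟨h1, h2, h3⟩, h6, h4, h5⟩

lemma ratio {E w : ℕ → ℝ} {c : ℝ} (hc : 0 < c) (h : Tendsto (fun n => w n * E n) atTop (𝓝 c))
    {A : ℕ → ℝ} (hA : ∀ᶠ n in atTop, E n / A n = (w n * E n) / c) :
    Tendsto (fun n => E n / A n) atTop (𝓝 1) := by
  have h1 := h.div_const c
  rw [div_self hc.ne'] at h1
  exact h1.congr' (hA.mono fun n hn => hn.symm)

theorem result (α : ℝ) (hα : 0 < α) :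
    (∀ lam : ℝ, 0 < lam → lam < 1 →
      IsLeast (SH (phi lam)) (cPhi lam) ∧ 0 < cPhi lam ∧
      Tendsto (fun n : ℕ => E n α (phi lam) / (cPhi lam / (α * n))) atTop (𝓝 1)) ∧
    (∀ lam : ℝ, 0 < lam → lam < 1 →
      IsLeast (SH (psi lam)) (cPsi lam) ∧ 0 < cPsi lam ∧
      Tendsto (fun n : ℕ => E n α (psi lam) / (cPsi lam / (α * n))) atTop (𝓝 1)) ∧
    (IsLeast (SAbs α) (cAbs α) ∧ 0 < cAbs α ∧
      Tendsto (fun n : ℕ => E n α (phi 1) / (cAbs α / n)) atTop (𝓝 1)) ∧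
    (∀ lam : ℝ, 0 < lam → lam < 1 →
      IsLeast (STheta lam) (cTheta lam) ∧ 0 < cTheta lam ∧
      Tendsto (fun n : ℕ => E n α (theta lam) / (cTheta lam / (2 * α * (n:ℝ) ^ 2))) atTop
        (𝓝 1)) := by
  refine ⟨fun lam h0 h1 => ?_, fun lam h0 h1 => ?_, ?_, fun lam h0 h1 => ?_⟩
  · have hp := pt_phi h0
    have hne := Pool.Agent.H293.HA.ne_even hp h0 h1.le
    obtain ⟨h2, h3⟩ := Pool.Agent.H293.HA.asympA hp h0 h1 hα hne
    have h4 := Pool.Agent.H293.HA.leastA hp h0 h1 hne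
    rw [← SH_eq] at h2 h3 h4
    refine ⟨h4, h2, ratio h2 h3 ?_⟩
    filter_upwards [eventually_ge_atTop 1] with n hn
    have hn0 : (0:ℝ) < n := by exact_mod_cast hn
    show E n α (phi lam) / (sInf (SH (phi lam)) / (α * n)) = n * α * E n α (phi lam) / sInf (SH (phi lam))
    rw [div_div_eq_mul_div]
    ring
  · have hp := pt_psi h0
    have hne := Pool.Agent.H293.HA.ne_odd hp h0 h1.le
    obtain ⟨h2, h3⟩ := Pool.Agent.H293.HA.asympA hp h0 h1 hα hne
    have h4 := Pool.Agent.H293.HA.leastA hp h0 h1 hne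
    rw [← SH_eq] at h2 h3 h4
    refine ⟨h4, h2, ratio h2 h3 ?_⟩
    filter_upwards [eventually_ge_atTop 1] with n hn
    have hn0 : (0:ℝ) < n := by exact_mod_cast hn
    show E n α (psi lam) / (sInf (SH (psi lam)) / (α * n)) = n * α * E n α (psi lam) / sInf (SH (psi lam))
    rw [div_div_eq_mul_div]
    ring
  · have hp := pt_phi one_pos
    obtain ⟨h2, h3⟩ := Pool.Agent.H293.HA.asymp1 hp hα
    have h4 := Pool.Agent.H293.HA.least1 hp hα
    rw [← SAbs_eq] at h2 h3 h4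
    refine ⟨h4, h2, ratio h2 h3 ?_⟩
    filter_upwards [eventually_ge_atTop 1] with n hn
    have hn0 : (0:ℝ) < n := by exact_mod_cast hn
    show E n α (phi 1) / (sInf (SAbs α) / n) = n * E n α (phi 1) / sInf (SAbs α)
    rw [div_div_eq_mul_div]
    ring
  · obtain ⟨h2, h3⟩ := Pool.Agent.H293.HA.asympT h0 h1 hα
    have h4 := Pool.Agent.H293.HA.leastT h0 h1
    rw [← STheta_eq] at h2 h3 h4
    refine ⟨h4, h2, ratio h2 h3 ?_⟩
    filter_upwards [eventually_ge_atTop 1] with n hn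
    have hn0 : (0:ℝ) < n := by exact_mod_cast hn
    show E n α (theta lam) / (sInf (STheta lam) / (2 * α * (n:ℝ) ^ 2)) =
      2 * (n:ℝ) ^ 2 * α * E n α (theta lam) / sInf (STheta lam)
    rw [div_div_eq_mul_div]
    ring

end Pool.Agent.Results.MP_7e6317_an.ExactAsymptotics
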